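import Pool.Agent.W458.MF.OStm

/-!
# Isometries with two nonsplit factors (MFO-REAL2)
-/

set_option autoImplicit false
set_option linter.unusedSectionVars false
set_option linter.unusedSimpArgs false

open Polynomial
open scoped commutatorElement

namespace Pool.Agent.W928.MF

open Pool.Agent.W458.MF Pool.Agent.W521.Frob

section gen

variable {F : Type*} [Field F] {α β ι : Type*} [Fintype α] [Fintype β] [Fintype ι]
  [DecidableEq α] [DecidableEq β] [DecidableEq ι]

/-- the equivalence of the index sets -/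
def EE (e : α ⊕ β ≃ ι) : (α ⊕ α) ⊕ (β ⊕ β) ≃ ι ⊕ ι :=
  (Equiv.sumSumSumComm α α β β).trans (Equiv.sumCongr e e)

/-- block sum of two matrices -/
def phi (e : α ⊕ β ≃ ι) (m : Matrix (α ⊕ α) (α ⊕ α) F) (d : Matrix (β ⊕ β) (β ⊕ β) F) :
    Matrix (ι ⊕ ι) (ι ⊕ ι) F :=
  (Matrix.fromBlocks m 0 0 d).submatrix (EE e).symm (EE e).symm

lemma phi_mul (e : α ⊕ β ≃ ι) (m m' : Matrix (α ⊕ α) (α ⊕ α) F)
    (d d' : Matrix (β ⊕ β) (β ⊕ β) F) : phi e m d * phi e m' d' = phi e (m * m') (d * d') := by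
  rw [phi, phi, phi, Matrix.submatrix_mul_equiv, Matrix.fromBlocks_multiply]
  simp

lemma phi_one (e : α ⊕ β ≃ ι) :
    phi e (1 : Matrix (α ⊕ α) (α ⊕ α) F) (1 : Matrix (β ⊕ β) (β ⊕ β) F) = 1 := by
  rw [phi, Matrix.fromBlocks_one, Matrix.submatrix_one_equiv]

lemma phi_transpose (e : α ⊕ β ≃ ι) (m : Matrix (α ⊕ α) (α ⊕ α) F)
    (d : Matrix (β ⊕ β) (β ⊕ β) F) : (phi e m d).transpose = phi e m.transpose d.transpose := by
  rw [phi, phi, Matrix.transpose_submatrix, Matrix.fromBlocks_transpose, Matrix.transpose_zero,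
    Matrix.transpose_zero]

lemma phi_smul (e : α ⊕ β ≃ ι) (r : F) (m : Matrix (α ⊕ α) (α ⊕ α) F)
    (d : Matrix (β ⊕ β) (β ⊕ β) F) : r • phi e m d = phi e (r • m) (r • d) := by
  have h1 : Matrix.fromBlocks (r • m) 0 0 (r • d) = r • Matrix.fromBlocks m 0 0 d := by
    rw [Matrix.fromBlocks_smul, smul_zero, smul_zero]
  rw [phi, phi, h1]
  rfl

lemma phi_charpoly (e : α ⊕ β ≃ ι) (m : Matrix (α ⊕ α) (α ⊕ α) F)
    (d : Matrix (β ⊕ β) (β ⊕ β) F) : (phi e m d).charpoly = m.charpoly * d.charpoly := by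
  have h1 : phi e m d = Matrix.reindex (EE e) (EE e) (Matrix.fromBlocks m 0 0 d) := rfl
  rw [h1, Matrix.charpoly_reindex, Matrix.charpoly_fromBlocks_zero₁₂]

lemma phi_blocks (e : α ⊕ β ≃ ι) (a b c d : Matrix α α F) (a' b' c' d' : Matrix β β F) :
    phi e (Matrix.fromBlocks a b c d) (Matrix.fromBlocks a' b' c' d') =
      Matrix.fromBlocks ((Matrix.fromBlocks a 0 0 a').submatrix e.symm e.symm)
        ((Matrix.fromBlocks b 0 0 b').submatrix e.symm e.symm)
        ((Matrix.fromBlocks c 0 0 c').submatrix e.symm e.symm)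
        ((Matrix.fromBlocks d 0 0 d').submatrix e.symm e.symm) := by
  have key : (Matrix.fromBlocks (Matrix.fromBlocks a b c d) 0 0
      (Matrix.fromBlocks a' b' c' d')).submatrix (Equiv.sumSumSumComm α α β β).symm
        (Equiv.sumSumSumComm α α β β).symm =
      Matrix.fromBlocks (Matrix.fromBlocks a 0 0 a') (Matrix.fromBlocks b 0 0 b')
        (Matrix.fromBlocks c 0 0 c') (Matrix.fromBlocks d 0 0 d') := by
    ext i j
    rcases i with (i | i) | (i | i) <;> rcases j with (j | j) | (j | j) <;> rfl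
  have key2 : phi e (Matrix.fromBlocks a b c d) (Matrix.fromBlocks a' b' c' d') =
      ((Matrix.fromBlocks (Matrix.fromBlocks a b c d) 0 0
      (Matrix.fromBlocks a' b' c' d')).submatrix (Equiv.sumSumSumComm α α β β).symm
        (Equiv.sumSumSumComm α α β β).symm).submatrix (Equiv.sumCongr e e).symm
          (Equiv.sumCongr e e).symm := rfl
  rw [key2, key]
  ext i j
  rcases i with i | i <;> rcases j with j | j <;> rfl

end gen

/-- the 4x4 block -/
def m4 {F : Type*} [Field F] (s s' : F) : Matrix (Fin 2 ⊕ Fin 2) (Fin 2 ⊕ Fin 2) F :=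
  Matrix.fromBlocks 0 !![1, 0; -s', 1] !![1, s'; 0, 1] !![s * s', -s; s, 0]

/-- right multiplication by a matrix -/
def mr {F : Type*} [Field F] (s : F) : Matrix (Fin 2 ⊕ Fin 2) (Fin 2 ⊕ Fin 2) F :=
  Matrix.fromBlocks !![0, -1; 1, s] 0 0 !![s, -1; 1, 0]

/-- transposition -/
def tr4 (F : Type*) [Field F] : Matrix (Fin 2 ⊕ Fin 2) (Fin 2 ⊕ Fin 2) F :=
  Matrix.fromBlocks !![1, 0; 0, 0] !![0, 0; 0, -1] !![0, 0; 0, -1] !![1, 0; 0, 0]

lemma tr4_mul (F : Type*) [Field F] : tr4 F * tr4 F = 1 := by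
  rw [tr4, Matrix.fromBlocks_multiply, ← Matrix.fromBlocks_one]
  congr 1 <;> (ext i j; fin_cases i <;> fin_cases j <;>
    simp [Matrix.mul_apply, Fin.sum_univ_two])

lemma tr4_transpose (F : Type*) [Field F] : (tr4 F).transpose = tr4 F := by
  rw [tr4, Matrix.fromBlocks_transpose]
  congr 1 <;> (ext i j; fin_cases i <;> fin_cases j <;> simp [Matrix.transpose_apply])

lemma tr4_iso (F : Type*) [Field F] :
    tr4 F * Matrix.fromBlocks 0 1 1 0 * (tr4 F).transpose = Matrix.fromBlocks 0 1 1 0 := by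
  rw [tr4_transpose, tr4, Matrix.fromBlocks_multiply, Matrix.fromBlocks_multiply]
  congr 1 <;> (ext i j; fin_cases i <;> fin_cases j <;>
    simp [Matrix.mul_apply, Fin.sum_univ_two])

lemma m4_eq {F : Type*} [Field F] (s s' : F) : m4 s s' = tr4 F * mr s * tr4 F * mr s' := by
  rw [m4, tr4, mr, mr, Matrix.fromBlocks_multiply, Matrix.fromBlocks_multiply,
    Matrix.fromBlocks_multiply]
  congr 1 <;> (ext i j; fin_cases i <;> fin_cases j <;>
    simp [Matrix.mul_apply, Fin.sum_univ_two])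

lemma det4 {R : Type*} [CommRing R] (a b c d e f g h i j k l m n o p : R) :
    Matrix.det !![a, b, c, d; e, f, g, h; i, j, k, l; m, n, o, p] =
      a * (f * (k * p - l * o) - g * (j * p - l * n) + h * (j * o - k * n)) -
      b * (e * (k * p - l * o) - g * (i * p - l * m) + h * (i * o - k * m)) +
      c * (e * (j * p - l * n) - f * (i * p - l * m) + h * (i * n - j * m)) -
      d * (e * (j * o - k * n) - f * (i * o - k * m) + g * (i * n - j * m)) := by
  rw [Matrix.det_succ_row_zero]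
  simp [Fin.sum_univ_succ, Matrix.det_fin_three, Matrix.submatrix_apply, Fin.succAbove]
  ring

lemma m4_charpoly {F : Type*} [Field F] (s s' r t₀ t₁ : F) (h1 : r * (s * s') = t₀ + t₁)
    (h2 : r ^ 2 * (s ^ 2 + s' ^ 2) = t₀ * t₁ + 4 * r ^ 2) :
    (r • m4 s s').charpoly = (X ^ 2 - C t₀ * X + C (r ^ 2)) * (X ^ 2 - C t₁ * X + C (r ^ 2)) := by
  have e1 : Matrix.reindex finSumFinEquiv finSumFinEquiv (r • m4 s s') =
      !![0, 0, r, 0; 0, 0, r * -s', r; r, r * s', r * (s * s'), r * -s; 0, r, r * s, 0] := by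
    ext i j
    fin_cases i <;> fin_cases j <;> simp [m4, finSumFinEquiv, Fin.addCases]
  have e2 : Matrix.charmatrix (!![0, 0, r, 0; 0, 0, r * -s', r; r, r * s', r * (s * s'), r * -s;
      0, r, r * s, 0] : Matrix (Fin 4) (Fin 4) F) =
      !![X, 0, -C r, 0; 0, X, C r * C s', -C r; -C r, -(C r * C s'), X - C r * (C s * C s'),
        C r * C s; 0, - C r, -(C r * C s), X] := by
    ext i j
    fin_cases i <;> fin_cases j <;> simp
  rw [← Matrix.charpoly_reindex finSumFinEquiv, e1, Matrix.charpoly, e2, det4]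
  have h1' : C r * (C s * C s') = C t₀ + C t₁ := by
    rw [← C_mul, ← C_mul, h1, C_add]
  have h4 : (C 4 : F[X]) = 4 := map_ofNat C 4
  have h2' : C r ^ 2 * (C s ^ 2 + C s' ^ 2) = C t₀ * C t₁ + 4 * C r ^ 2 := by
    rw [← C_pow, ← C_pow, ← C_pow, ← C_add, ← C_mul, h2, C_add, C_mul, C_mul, h4]
  rw [C_pow]
  linear_combination (-X ^ 3 - C r ^ 2 * X) * h1' + X ^ 2 * h2'

/-- the values of the elements of the commutator subgroup -/
def InO (g l : ℕ) (M : Matrix (Fin g ⊕ Fin g) (Fin g ⊕ Fin g) (ZMod l)) : Prop :=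
  ∃ ω ∈ Omega g l, ω.val = M

lemma inO_mul {g l : ℕ} {M N : Matrix (Fin g ⊕ Fin g) (Fin g ⊕ Fin g) (ZMod l)}
    (hM : InO g l M) (hN : InO g l N) : InO g l (M * N) := by
  obtain ⟨ω, h1, rfl⟩ := hM
  obtain ⟨ω', h2, rfl⟩ := hN
  exact ⟨ω * ω', mul_mem h1 h2, rfl⟩

lemma inO_conj {g l : ℕ} {M P Q : Matrix (Fin g ⊕ Fin g) (Fin g ⊕ Fin g) (ZMod l)}
    (hM : InO g l M) (hPQ : P * Q = 1)
    (hP : P * splitForm g l * P.transpose = splitForm g l) : InO g l (P * M * Q) := by
  obtain ⟨ω, h1, rfl⟩ := hM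
  let p : (Matrix (Fin g ⊕ Fin g) (Fin g ⊕ Fin g) (ZMod l))ˣ :=
    ⟨P, Q, hPQ, mul_eq_one_comm.1 hPQ⟩
  have hp : p ∈ isometries g l := hP
  have hle : Omega g l ≤ isometries g l := Subgroup.commutator_le_self _
  refine ⟨p * ω * p⁻¹, ?_, rfl⟩
  have h2 : p * ω * p⁻¹ = ⁅p, ω⁆ * ω := by
    rw [commutatorElement_def]
    group
  rw [h2]
  exact mul_mem (Subgroup.commutator_mem_commutator hp (hle h1)) h1

lemma inO_block (h : St_OMEG) {g l : ℕ} (hg : 2 ≤ g) (hl : l.Prime) (hl5 : 5 ≤ l)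
    (M M' : Matrix (Fin g) (Fin g) (ZMod l)) (hM : M * M'.transpose = 1)
    (hsq : IsSquare M.det) : InO g l (Matrix.fromBlocks M 0 0 M') := by
  have : Fact l.Prime := ⟨hl⟩
  have hdet : M.det ≠ 0 := by
    intro h0
    have h1 := congrArg Matrix.det hM
    rw [Matrix.det_mul, h0, zero_mul, Matrix.det_one] at h1
    exact zero_ne_one h1
  obtain ⟨ω, h1, h2⟩ := h g l hg hl hl5 M hdet hsq
  refine ⟨ω, h1, ?_⟩
  rw [h2, Matrix.inv_eq_right_inv hM, Matrix.transpose_transpose]

lemma nonsq_mul {l : ℕ} [Fact l.Prime] (hl : l ≠ 2) (a b : ZMod l) (ha : ¬ IsSquare a)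
    (hb : ¬ IsSquare b) : IsSquare (a * b) := by
  have h2 : ringChar (ZMod l) ≠ 2 := by
    rw [ZMod.ringChar_zmod_n]
    exact hl
  have ha0 : a ≠ 0 := by
    rintro rfl
    exact ha IsSquare.zero
  have hb0 : b ≠ 0 := by
    rintro rfl
    exact hb IsSquare.zero
  rw [← quadraticChar_one_iff_isSquare (mul_ne_zero ha0 hb0), map_mul,
    quadraticChar_neg_one_iff_not_isSquare.2 ha, quadraticChar_neg_one_iff_not_isSquare.2 hb]
  norm_num

lemma charpoly_diag {F : Type*} [Field F] {n : Type*} [Fintype n] [DecidableEq n] (d : n → F) :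
    (Matrix.diagonal d).charpoly = ∏ i, (X - C (d i)) := by
  have h1 : (Matrix.diagonal d).charmatrix = Matrix.diagonal fun i => X - C (d i) := by
    ext i j
    by_cases hij : i = j
    · subst hij
      rw [Matrix.charmatrix_apply_eq, Matrix.diagonal_apply_eq, Matrix.diagonal_apply_eq]
    · rw [Matrix.charmatrix_apply_ne _ _ _ hij, Matrix.diagonal_apply_ne _ hij,
        Matrix.diagonal_apply_ne _ hij, C_0, neg_zero]
  rw [Matrix.charpoly, h1, Matrix.det_diagonal]

theorem real2 (h : St_OMEG) : St_REAL2 := by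
  classical
  intro g l r κ T t₀ t₁ hg hl hl5 hlr hT ht₀ ht₁ hne hA hB hsq hκ
  have : Fact l.Prime := ⟨hl⟩
  have hl2 : l ≠ 2 := by omega
  have h2F : (2 : ZMod l) ≠ 0 := by
    have h1 : ((2 : ℕ) : ZMod l) ≠ 0 := by
      rw [Ne, ZMod.natCast_eq_zero_iff]
      intro h1
      have := Nat.le_of_dvd (by norm_num) h1
      omega
    exact_mod_cast h1
  have hr0 : (r : ZMod l) ≠ 0 := by
    rw [Ne, ZMod.natCast_eq_zero_iff]
    exact hlr
  -- the numbers
  obtain ⟨s, s', hs1, hs2⟩ : ∃ s s' : ZMod l, (r : ZMod l) * (s * s') = t₀ + t₁ ∧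
      (r : ZMod l) ^ 2 * (s ^ 2 + s' ^ 2) = t₀ * t₁ + 4 * (r : ZMod l) ^ 2 := by
    obtain ⟨⟨x, hx⟩, -, hA3⟩ := hA
    obtain ⟨⟨y, hy⟩, -, hB3⟩ := hB
    obtain ⟨w, hw⟩ := nonsq_mul hl2 _ _ hA3 hB3
    refine ⟨(x * y + w) / (2 * r), (x * y - w) / (2 * r), ?_, ?_⟩
    · field_simp
      linear_combination hw - (t₁ + 2 * (r : ZMod l)) * hx - x * x * hy
    · field_simp
      linear_combination (-2 : ZMod l) * hw - 2 * (t₁ + 2 * (r : ZMod l)) * hx - 2 * x * x * hy
  -- the other roots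
  set T' := (T.erase t₀).erase t₁ with hT'
  have hcard : T'.card + 2 = g := by
    rw [hT', Finset.card_erase_of_mem (Finset.mem_erase.2 ⟨hne.symm, ht₁⟩),
      Finset.card_erase_of_mem ht₀, hT]
    omega
  have hex : ∀ t : T', ∃ a : ZMod l, a ≠ 0 ∧ a ^ 2 + (r : ZMod l) ^ 2 = t * a := by
    intro t
    obtain ⟨⟨w, hw⟩, -⟩ := hsq t t.2
    refine ⟨((t : ZMod l) + w) / 2, ?_, ?_⟩
    · intro h0
      have h1 : ((t : ZMod l) + w) = 0 := by
        rcases div_eq_zero_iff.1 h0 with h1 | h1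
        · exact h1
        · exact absurd h1 h2F
      have h3 : (2 : ZMod l) ^ 2 * (r : ZMod l) ^ 2 = 0 := by
        linear_combination (-1 : ZMod l) * hw + ((t : ZMod l) - w) * h1
      exact (mul_ne_zero (pow_ne_zero 2 h2F) (pow_ne_zero 2 hr0)) h3
    · field_simp
      linear_combination (-1 : ZMod l) * hw
  choose a ha0 ha using hex
  have e : Fin 2 ⊕ T' ≃ Fin g := Fintype.equivOfCardEq (by
    rw [Fintype.card_sum, Fintype.card_fin, Fintype.card_coe, Fintype.card_fin]
    omega)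
  have hinv : ∀ t : T', a t / r * (r / a t) = 1 := by
    intro t
    have := ha0 t
    field_simp
  have hinv' : ∀ t : T', r / a t * (a t / r) = 1 := by
    intro t
    have := ha0 t
    field_simp
  set A : Matrix T' T' (ZMod l) := Matrix.diagonal fun t => a t / r with hA'
  set A' : Matrix T' T' (ZMod l) := Matrix.diagonal fun t => r / a t with hA''
  have hAA : A * A' = 1 := by
    rw [hA', hA'', Matrix.diagonal_mul_diagonal]
    simp only [hinv]
    exact Matrix.diagonal_one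
  have hAt : A'.transpose = A' := Matrix.diagonal_transpose _
  -- the pieces in the commutator subgroup
  have hmr : ∀ s : ZMod l, InO g l (phi e (mr s) 1) := by
    intro s
    have h1 : phi e (mr s) (1 : Matrix (T' ⊕ T') (T' ⊕ T') (ZMod l)) =
        Matrix.fromBlocks ((Matrix.fromBlocks !![0, -1; 1, s] 0 0 1).submatrix e.symm e.symm) 0 0
          ((Matrix.fromBlocks !![s, -1; 1, 0] 0 0 1).submatrix e.symm e.symm) := by
      rw [mr, ← Matrix.fromBlocks_one, phi_blocks, Matrix.fromBlocks_zero, Matrix.submatrix_zero]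
      rfl
    rw [h1]
    refine inO_block h (by omega) hl hl5 _ _ ?_ ?_
    · rw [Matrix.transpose_submatrix, Matrix.submatrix_mul_equiv, Matrix.fromBlocks_transpose,
        Matrix.fromBlocks_multiply]
      have h2 : (!![0, -1; 1, s] * (!![s, -1; 1, 0] : Matrix (Fin 2) (Fin 2) (ZMod l)).transpose :
          Matrix (Fin 2) (Fin 2) (ZMod l)) = 1 := by
        ext i j
        fin_cases i <;> fin_cases j <;> simp [Matrix.mul_apply, Fin.sum_univ_two]
      simp only [Matrix.transpose_zero, Matrix.mul_zero, Matrix.zero_mul, add_zero, zero_add,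
        Matrix.transpose_one, Matrix.mul_one, h2]
      rw [Matrix.fromBlocks_one, Matrix.submatrix_one_equiv]
    · rw [Matrix.det_submatrix_equiv_self, Matrix.det_fromBlocks_zero₁₂, Matrix.det_fin_two]
      simp
  have hsplf : splitForm g l = phi e (Matrix.fromBlocks 0 1 1 0) (Matrix.fromBlocks 0 1 1 0) := by
    rw [phi_blocks, Matrix.fromBlocks_zero, Matrix.fromBlocks_one, Matrix.submatrix_zero,
      Matrix.submatrix_one_equiv]
    rfl
  have hm4 : InO g l (phi e (m4 s s') 1) := by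
    have h1 : phi e (m4 s s') (1 : Matrix (T' ⊕ T') (T' ⊕ T') (ZMod l)) =
        (phi e (tr4 (ZMod l)) 1 * phi e (mr s) 1 * phi e (tr4 (ZMod l)) 1) * phi e (mr s') 1 := by
      rw [phi_mul, phi_mul, phi_mul, m4_eq, mul_one, mul_one, mul_one]
    rw [h1]
    refine inO_mul (inO_conj (hmr s) ?_ ?_) (hmr s')
    · rw [phi_mul, tr4_mul, mul_one, phi_one]
    · rw [phi_transpose, hsplf, phi_mul, phi_mul, tr4_iso, Matrix.transpose_one, mul_one, one_mul]
  -- the diagonal part
  have hD : ∃ ω ∈ Omega g l, phi e 1 (Matrix.fromBlocks A 0 0 A') = diagElt g l κ * ω.val := by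
    set k : Matrix (Fin g) (Fin g) (ZMod l) :=
      Matrix.diagonal (fun i => if i.val = 0 then (κ : ZMod l) else 1) with hk
    set k' : Matrix (Fin g) (Fin g) (ZMod l) :=
      Matrix.diagonal (fun i => if i.val = 0 then ((κ⁻¹ : (ZMod l)ˣ) : ZMod l) else 1) with hk'
    have hkk : k * k' = 1 := by
      rw [hk, hk', Matrix.diagonal_mul_diagonal, ← Matrix.diagonal_one]
      congr 1
      ext i
      by_cases hi : i.val = 0
      · rw [if_pos hi, if_pos hi, Units.mul_inv]
      · rw [if_neg hi, if_neg hi, mul_one]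
    have hkk' : k' * k = 1 := mul_eq_one_comm.1 hkk
    have hkt : k.transpose = k := Matrix.diagonal_transpose _
    have hdiag : diagElt g l κ = Matrix.fromBlocks k 0 0 k' := by
      rw [diagElt, hk, hk', Matrix.fromBlocks_diagonal]
    set RA : Matrix (Fin g) (Fin g) (ZMod l) :=
      (Matrix.fromBlocks 1 0 0 A).submatrix e.symm e.symm with hRA
    set RA' : Matrix (Fin g) (Fin g) (ZMod l) :=
      (Matrix.fromBlocks 1 0 0 A').submatrix e.symm e.symm with hRA'
    have hRAA : RA * RA' = 1 := by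
      rw [hRA, hRA', Matrix.submatrix_mul_equiv, Matrix.fromBlocks_multiply]
      simp only [Matrix.mul_zero, Matrix.zero_mul, add_zero, zero_add, Matrix.mul_one, hAA]
      rw [Matrix.fromBlocks_one, Matrix.submatrix_one_equiv]
    have hRAt : RA'.transpose = RA' := by
      rw [hRA', Matrix.transpose_submatrix, Matrix.fromBlocks_transpose, hAt, Matrix.transpose_zero,
        Matrix.transpose_zero, Matrix.transpose_one]
    have hphi : phi e 1 (Matrix.fromBlocks A 0 0 A') = Matrix.fromBlocks RA 0 0 RA' := by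
      rw [← Matrix.fromBlocks_one, phi_blocks, Matrix.fromBlocks_zero, Matrix.submatrix_zero]
      rfl
    have hone : k' * RA * (k * RA').transpose = 1 := by
      rw [Matrix.transpose_mul, hkt, hRAt, mul_assoc, ← mul_assoc RA, hRAA, one_mul, hkk']
    have hdetk : k'.det = ((κ⁻¹ : (ZMod l)ˣ) : ZMod l) := by
      rw [hk', Matrix.det_diagonal, Finset.prod_eq_single (⟨0, by omega⟩ : Fin g)]
      · rw [if_pos rfl]
      · intro i _ hi
        rw [if_neg]
        intro h0
        exact hi (Fin.ext h0)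
      · intro h0
        exact absurd (Finset.mem_univ _) h0
    have hdet : IsSquare (k' * RA).det := by
      rw [Matrix.det_mul, hdetk, hRA, Matrix.det_submatrix_equiv_self,
        Matrix.det_fromBlocks_zero₁₂, Matrix.det_one, one_mul, hA', Matrix.det_diagonal]
      obtain ⟨y, hy⟩ := hκ
      rw [← Finset.prod_coe_sort T' (fun t => (r : ZMod l) * (t + 2 * (r : ZMod l)))] at hy
      have hκ0 : (κ : ZMod l) ≠ 0 := κ.ne_zero
      have ht2 : ∀ t : T', (t : ZMod l) + 2 * (r : ZMod l) ≠ 0 := by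
        intro t h0
        apply (hsq t t.2).2
        linear_combination ((t : ZMod l) - 2 * (r : ZMod l)) * h0
      have hy0 : y ≠ 0 := by
        rintro rfl
        rw [mul_zero] at hy
        exact (mul_ne_zero hκ0 (Finset.prod_ne_zero_iff.2 fun t _ => mul_ne_zero hr0 (ht2 t))) hy
      refine ⟨(∏ t : T', (a t + r)) / y, ?_⟩
      rw [div_mul_div_comm, eq_div_iff (mul_ne_zero hy0 hy0), ← hy, ← Finset.prod_mul_distrib]
      calc ((κ⁻¹ : (ZMod l)ˣ) : ZMod l) * (∏ t : T', a t / (r : ZMod l)) *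
            ((κ : ZMod l) * ∏ t : T', (r : ZMod l) * ((t : ZMod l) + 2 * (r : ZMod l)))
          = (((κ⁻¹ : (ZMod l)ˣ) : ZMod l) * (κ : ZMod l)) * ((∏ t : T', a t / (r : ZMod l)) *
            ∏ t : T', (r : ZMod l) * ((t : ZMod l) + 2 * (r : ZMod l))) := by ring
        _ = ∏ t : T', (a t / (r : ZMod l) * ((r : ZMod l) * ((t : ZMod l) + 2 * (r : ZMod l)))) := by
            rw [Units.inv_mul, one_mul, ← Finset.prod_mul_distrib]
        _ = _ := by
            refine Finset.prod_congr rfl fun t _ => ?_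
            field_simp
            linear_combination (-1 : ZMod l) * ha t
    obtain ⟨ω, hω, hω'⟩ := inO_block h (by omega) hl hl5 (k' * RA) (k * RA') hone hdet
    refine ⟨ω, hω, ?_⟩
    rw [hω', hdiag, Matrix.fromBlocks_multiply, hphi]
    simp only [Matrix.mul_zero, Matrix.zero_mul, add_zero, zero_add, ← mul_assoc, hkk, hkk',
      one_mul]
  obtain ⟨ω₁, hω₁, hω₁'⟩ := hD
  obtain ⟨ω₂, hω₂, hω₂'⟩ := hm4
  refine ⟨phi e (m4 s s') (Matrix.fromBlocks A 0 0 A'), ⟨ω₁ * ω₂, mul_mem hω₁ hω₂, ?_⟩, ?_⟩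
  · rw [Units.val_mul, ← mul_assoc, ← hω₁', hω₂', phi_mul, one_mul, mul_one]
  · rw [phi_smul, phi_charpoly, m4_charpoly s s' _ t₀ t₁ hs1 hs2, Matrix.fromBlocks_smul, smul_zero,
      Matrix.charpoly_fromBlocks_zero₁₂]
    have hrA : (r : ZMod l) • A = Matrix.diagonal a := by
      rw [hA', ← Matrix.diagonal_smul]
      congr 1
      ext t
      rw [Pi.smul_apply, smul_eq_mul]
      field_simp
    have hrA' : (r : ZMod l) • A' = Matrix.diagonal fun t => (r : ZMod l) ^ 2 / a t := by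
      rw [hA'', ← Matrix.diagonal_smul]
      congr 1
      ext t
      rw [Pi.smul_apply, smul_eq_mul]
      ring
    rw [hrA, hrA', charpoly_diag, charpoly_diag, ← Finset.prod_mul_distrib,
      ← Finset.mul_prod_erase T _ ht₀,
      ← Finset.mul_prod_erase (T.erase t₀) _ (Finset.mem_erase.2 ⟨hne.symm, ht₁⟩), ← hT',
      ← Finset.prod_coe_sort T', ← mul_assoc]
    congr 1
    refine Finset.prod_congr rfl fun t _ => ?_
    have h1 : a t + (r : ZMod l) ^ 2 / a t = t := by
      have := ha0 t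
      field_simp
      linear_combination ha t
    have h2 : a t * ((r : ZMod l) ^ 2 / a t) = (r : ZMod l) ^ 2 := by
      have := ha0 t
      field_simp
    have h1' : C (a t) + C ((r : ZMod l) ^ 2 / a t) = C (t : ZMod l) := by
      rw [← C_add, h1]
    have h2' : C (a t) * C ((r : ZMod l) ^ 2 / a t) = C ((r : ZMod l) ^ 2) := by
      rw [← C_mul, h2]
    rw [← h1', ← h2']
    ring

end Pool.Agent.W928.MF
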