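import Pool.Agent.W458.MF.OStm
import Pool.Agent.W338.MF.NT

/-!
# The patterns imply that the relations are balanced, mixed case (MFO-NT2)
-/

set_option autoImplicit false

open Polynomial NumberField

namespace Pool.Agent.W928.MF

open Pool.Agent.W458.MF Pool.Agent.W521.Frob Pool.Agent.W521.Criterion Pool.Agent.W338.MF

/-- an automorphism which exchanges the pairs of roots above `θ` and above `θ'` and fixes all
other roots -/
def Edg {I : Type} (q : I → ℕ) (h : I → ℤ[X]) (R : ℤ[X]) {L : Type} [Field L] [Algebra ℚ L]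
    (i : I) (θ θ' : L) : Prop :=
  ∃ σ : L ≃ₐ[ℚ] L,
    (∀ β : L, aeval β (weil (q i) (h i)) = 0 →
      (β + (q i : L) / β = θ ∨ β + (q i : L) / β = θ') →
        σ β = (q i : L) / β ∧ β ≠ (q i : L) / β) ∧
    (∀ β : L, aeval β (weil (q i) (h i)) = 0 → β + (q i : L) / β ≠ θ →
      β + (q i : L) / β ≠ θ' → σ β = β) ∧
    (∀ i', i' ≠ i → ∀ β : L, aeval β (weil (q i') (h i')) = 0 → σ β = β) ∧
    ∀ β : L, aeval β R = 0 → σ β = β

/-- an automorphism `σ` which exchanges `α` and `q / α`, and `α'` and `q / α'`, and fixes all other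
roots, and an automorphism `τ` which exchanges `α` and `q / α` and fixes `α'` -/
def Flp2 {I : Type} (q : I → ℕ) (h : I → ℤ[X]) (R : ℤ[X]) {L : Type} [Field L] [Algebra ℚ L]
    (i : I) (α : L) : Prop :=
  ∃ (α' : L) (σ τ : L ≃ₐ[ℚ] L), α' ≠ 0 ∧ α' ≠ α ∧ α' ≠ q i / α ∧ α ≠ q i / α ∧ α' ≠ q i / α' ∧
    σ α = q i / α ∧ σ α' = q i / α' ∧
    (∀ β : L, aeval β (weil (q i) (h i)) = 0 → β ≠ α → β ≠ q i / α → β ≠ α' → β ≠ q i / α' →
      σ β = β) ∧
    (∀ i', i' ≠ i → ∀ β : L, aeval β (weil (q i') (h i')) = 0 → σ β = β) ∧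
    (∀ β : L, aeval β R = 0 → σ β = β) ∧
    τ α = q i / α ∧ τ α' = α'

/-- conjugate edges -/
theorem edg_conj {I : Type} {q : I → ℕ} {h : I → ℤ[X]} {R : ℤ[X]}
    (L : Type) [Field L] [NumberField L] [IsGalois ℚ L] (i : I) (θ θ' : L) (τ : L ≃ₐ[ℚ] L)
    (hE : Edg q h R i θ θ') : Edg q h R i (τ θ) (τ θ') := by
  obtain ⟨σ, h1, h2, h3, h4⟩ := hE
  have hτs : ∀ x, τ (τ.symm x) = x := fun x => τ.apply_symm_apply x
  have hsum : ∀ β : L, τ.symm β + (q i : L) / τ.symm β = τ.symm (β + (q i : L) / β) := by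
    intro β
    rw [map_add, map_div₀, map_natCast]
  refine ⟨(τ.symm.trans σ).trans τ, ?_, ?_, ?_, ?_⟩
  · intro β hβ hor
    have h5 : τ.symm β + (q i : L) / τ.symm β = θ ∨ τ.symm β + (q i : L) / τ.symm β = θ' := by
      rw [hsum]
      rcases hor with e | e
      · left
        rw [e, τ.symm_apply_apply]
      · right
        rw [e, τ.symm_apply_apply]
    obtain ⟨h6, h7⟩ := h1 _ (aeval_alg L _ _ _ hβ) h5
    refine ⟨?_, ?_⟩
    · rw [AlgEquiv.trans_apply, AlgEquiv.trans_apply, h6, map_div₀, map_natCast, hτs]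
    · intro h8
      apply h7
      conv_lhs => rw [h8]
      rw [map_div₀, map_natCast]
  · intro β hβ hn1 hn2
    have h6 : σ (τ.symm β) = τ.symm β := by
      refine h2 _ (aeval_alg L _ _ _ hβ) ?_ ?_
      · intro e
        apply hn1
        rw [hsum] at e
        rw [← e, hτs]
      · intro e
        apply hn2
        rw [hsum] at e
        rw [← e, hτs]
    rw [AlgEquiv.trans_apply, AlgEquiv.trans_apply, h6, hτs]
  · intro i' hi' β hβ
    have h6 : σ (τ.symm β) = τ.symm β := h3 i' hi' _ (aeval_alg L _ _ _ hβ)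
    rw [AlgEquiv.trans_apply, AlgEquiv.trans_apply, h6, hτs]
  · intro β hβ
    have h6 : σ (τ.symm β) = τ.symm β := h4 _ (aeval_alg L _ _ _ hβ)
    rw [AlgEquiv.trans_apply, AlgEquiv.trans_apply, h6, hτs]

/-- transitivity on the roots -/
theorem exists_perm {h : ℤ[X]} (hm : h.Monic) (hirr : Irreducible (h.map (Int.castRingHom ℚ)))
    (L : Type) [Field L] [NumberField L] [IsGalois ℚ L] (θ θ' : L) (hθ : aeval θ h = 0)
    (hθ' : aeval θ' h = 0) : ∃ τ : L ≃ₐ[ℚ] L, τ θ = θ' := by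
  have hmin : ∀ θ : L, aeval θ h = 0 → minpoly ℚ θ = h.map (Int.castRingHom ℚ) := by
    intro θ hθ
    refine (minpoly.eq_of_irreducible_of_monic hirr ?_ (hm.map _)).symm
    rw [aeval_def, eval₂_map, RingHom.ext_int ((algebraMap ℚ L).comp _) (algebraMap ℤ L)]
    exact hθ
  obtain ⟨τ, hτ⟩ := isConjRoot_iff_exists_algEquiv.1
    ((hmin _ hθ').trans (hmin _ hθ).symm : IsConjRoot ℚ θ' θ)
  exact ⟨τ, hτ⟩

/-- every root has two neighbours -/
theorem two_partners {I : Type} {q : I → ℕ} {h : I → ℤ[X]} {R : ℤ[X]}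
    (hm : ∀ i, (h i).Monic) (L : Type) [Field L] [NumberField L] [IsGalois ℚ L] (i : I)
    (hirr : Irreducible ((h i).map (Int.castRingHom ℚ)))
    (θ₀ θ₁ : L) (hθ₀ : aeval θ₀ (h i) = 0) (hθ₁ : aeval θ₁ (h i) = 0) (hne : θ₀ ≠ θ₁)
    (hE : Edg q h R i θ₀ θ₁) (σ : L ≃ₐ[ℚ] L) (ϑ : L) (hϑ : aeval ϑ (h i) = 0) (hfix : σ ϑ = ϑ)
    (huniq : ∀ θ' : L, aeval θ' (h i) = 0 → σ θ' = θ' → θ' = ϑ)
    (θ : L) (hθ : aeval θ (h i) = 0) :
    ∃ θ' θ'' : L, aeval θ' (h i) = 0 ∧ θ' ≠ θ ∧ θ' ≠ θ'' ∧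
      Edg q h R i θ θ' ∧ Edg q h R i θ θ'' := by
  obtain ⟨τ₀, hτ₀⟩ := exists_perm (hm i) hirr L θ₀ ϑ hθ₀ hϑ
  obtain ⟨τ₁, hτ₁⟩ := exists_perm (hm i) hirr L ϑ θ hϑ hθ
  have hE1 := edg_conj L i θ₀ θ₁ τ₀ hE
  rw [hτ₀] at hE1
  have hE2 := edg_conj L i _ _ σ hE1
  rw [hfix] at hE2
  have hroot : aeval (τ₀ θ₁) (h i) = 0 := aeval_alg L _ _ _ hθ₁
  have hne1 : τ₀ θ₁ ≠ ϑ := by
    rw [← hτ₀]
    intro e
    exact hne (τ₀.injective e).symm
  have hne2 : σ (τ₀ θ₁) ≠ τ₀ θ₁ := fun e => hne1 (huniq _ hroot e)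
  have hE3 := edg_conj L i _ _ τ₁ hE1
  have hE4 := edg_conj L i _ _ τ₁ hE2
  rw [hτ₁] at hE3 hE4
  refine ⟨τ₁ (τ₀ θ₁), τ₁ (σ (τ₀ θ₁)), aeval_alg L _ _ _ hroot, ?_, ?_, hE3, hE4⟩
  · intro e
    rw [← hτ₁] at e
    exact hne1 (τ₁.injective e)
  · intro e
    exact hne2 (τ₁.injective e).symm

/-- from edges to flips -/
theorem flp2_of_edg {I : Type} {q : I → ℕ} {h : I → ℤ[X]} {R : ℤ[X]} (hq : ∀ i, q i ≠ 0)
    (hm : ∀ i, (h i).Monic) (L : Type) [Field L] [NumberField L] (i : I)
    (hqd : ∀ θ : L, aeval θ (h i) = 0 → ∃ α : L, α ^ 2 + (q i : L) = θ * α)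
    (α : L) (hα : aeval α (weil (q i) (h i)) = 0) (θ' θ'' : L) (hθ' : aeval θ' (h i) = 0)
    (hne : θ' ≠ α + (q i : L) / α) (hne' : θ' ≠ θ'')
    (hE : Edg q h R i (α + (q i : L) / α) θ') (hE' : Edg q h R i (α + (q i : L) / α) θ'') :
    Flp2 q h R i α := by
  have hqL : (q i : L) ≠ 0 := by exact_mod_cast hq i
  have hα0 := root_ne_zero (hq i) (hm i) hα
  obtain ⟨α', hα'⟩ := hqd θ' hθ'
  have hα'0 : α' ≠ 0 := by
    rintro rfl
    rw [zero_pow two_ne_zero, zero_add, mul_zero] at hα'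
    exact hqL hα'
  have hα'w : aeval α' (weil (q i) (h i)) = 0 := by
    rw [aeval_weil (q i) (h i) α' θ' hα', hθ', mul_zero]
  have hθe : α' + (q i : L) / α' = θ' := by
    apply mul_right_cancel₀ hα'0
    rw [← hα']
    field_simp
  obtain ⟨σ, s1, s2, s3, s4⟩ := hE
  obtain ⟨τ, t1, t2, -, -⟩ := hE'
  obtain ⟨s5, s6⟩ := s1 α hα (Or.inl rfl)
  obtain ⟨s7, s8⟩ := s1 α' hα'w (Or.inr hθe)
  obtain ⟨t5, -⟩ := t1 α hα (Or.inl rfl)
  have hsame : ∀ β γ : L, β ≠ 0 → γ ≠ 0 → β + (q i : L) / β = γ + (q i : L) / γ →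
      β = γ ∨ β = (q i : L) / γ := by
    intro β γ hβ hγ e
    have h1 : (β - γ) * (β - (q i : L) / γ) = 0 := by
      have h2 : β * ((q i : L) / β) = q i := by field_simp
      have h3 : γ * ((q i : L) / γ) = q i := by field_simp
      have h4 : β * (β + (q i : L) / β) = β * (γ + (q i : L) / γ) := by rw [e]
      linear_combination h4 - h2 + h3
    rcases mul_eq_zero.1 h1 with h2 | h2
    · exact Or.inl (sub_eq_zero.1 h2)
    · exact Or.inr (sub_eq_zero.1 h2)
  refine ⟨α', σ, τ, hα'0, ?_, ?_, s6, s8, s5, s7, ?_, s3, s4, t5, ?_⟩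
  · rintro rfl
    exact hne hθe.symm
  · intro e
    apply hne
    rw [← hθe, e, div_div_cancel₀ hqL, add_comm]
  · intro β hβ n1 n2 n3 n4
    have hβ0 := root_ne_zero (hq i) (hm i) hβ
    refine s2 β hβ ?_ ?_
    · intro e
      rcases hsame β α hβ0 hα0 e with e | e
      · exact n1 e
      · exact n2 e
    · intro e
      rw [← hθe] at e
      rcases hsame β α' hβ0 hα'0 e with e | e
      · exact n3 e
      · exact n4 e
  · refine t2 α' hα'w ?_ ?_
    · rw [hθe]
      exact hne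
    · rw [hθe]
      exact hne'

lemma prod_four {K L : Type} [BEq K] [LawfulBEq K] [Field L] (f : K → L) (a b c d : K)
    (hab : a ≠ b) (hac : a ≠ c) (had : a ≠ d) (hbc : b ≠ c) (hbd : b ≠ d) (hcd : c ≠ d)
    (r s : L) (hr : r ≠ 0) (hs : s ≠ 0) (ha : f a = r) (hb : f b = r⁻¹) (hc : f c = s)
    (hd : f d = s⁻¹) (l : List K)
    (hl : ∀ x ∈ l, x ≠ a → x ≠ b → x ≠ c → x ≠ d → f x = 1) :
    (l.map f).prod * (r ^ l.count b * s ^ l.count d) = r ^ l.count a * s ^ l.count c := by
  classical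
  induction l with
  | nil => simp
  | cons x l ih =>
    have ih' := ih fun y hy => hl y (List.mem_cons_of_mem x hy)
    rw [List.map_cons, List.prod_cons, List.count_cons, List.count_cons, List.count_cons,
      List.count_cons]
    have hbeq : ∀ u v : K, u ≠ v → ¬ (u == v) = true := by
      intro u v huv
      rw [beq_iff_eq]
      exact huv
    by_cases h1 : x = a
    · subst h1
      rw [ha, if_neg (hbeq _ _ hab), if_neg (hbeq _ _ hac), if_neg (hbeq _ _ had), add_zero,
        add_zero, add_zero, if_pos (beq_self_eq_true x), pow_add, pow_one]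
      linear_combination r * ih'
    · by_cases h2 : x = b
      · subst h2
        rw [hb, if_neg (hbeq _ _ h1), if_neg (hbeq _ _ hbc), if_neg (hbeq _ _ hbd), add_zero,
          add_zero, add_zero, if_pos (beq_self_eq_true x), pow_add, pow_one, ← ih']
        field_simp
      · by_cases h3 : x = c
        · subst h3
          rw [hc, if_neg (hbeq _ _ h1), if_neg (hbeq _ _ h2), if_neg (hbeq _ _ hcd), add_zero,
            add_zero, add_zero, if_pos (beq_self_eq_true x), pow_add, pow_one]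
          linear_combination s * ih'
        · by_cases h4 : x = d
          · subst h4
            rw [hd, if_neg (hbeq _ _ h1), if_neg (hbeq _ _ h2), if_neg (hbeq _ _ h3), add_zero,
              add_zero, add_zero, if_pos (beq_self_eq_true x), pow_add, pow_one, ← ih']
            field_simp
          · rw [hl x List.mem_cons_self h1 h2 h3 h4, if_neg (hbeq _ _ h1), if_neg (hbeq _ _ h2),
              if_neg (hbeq _ _ h3), if_neg (hbeq _ _ h4), add_zero, add_zero, add_zero, add_zero,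
              ← ih', one_mul]

/-- the relations are balanced -/
theorem bal2 {I : Type} {q : I → ℕ} {h : I → ℤ[X]} {R : ℤ[X]} (hq : ∀ i, q i ≠ 0)
    (hm : ∀ i, (h i).Monic)
    (L : Type) [Field L] [NumberField L] [IsGalois ℚ L] (j : L →+* ℂ)
    (hL : ∀ i, ∀ z : ℂ, aeval z (weil (q i) (h i)) = 0 → ∃ x : L, j x = z)
    (hLR : ∀ z : ℂ, aeval z R = 0 → ∃ x : L, j x = z)
    (key : ∀ i, ∀ α : L, aeval α (weil (q i) (h i)) = 0 →
      (Flp q h R i α ∨ Flp2 q h R i α) ∧
      ∀ t : ℕ, 0 < t → (α ^ 2) ^ t ≠ (q i : L) ^ t)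
    (l : List (I × ℂ)) (hl : ∀ x ∈ l, aeval x.2 (weil (q x.1) (h x.1)) = 0) (t : ℕ) (ht : 0 < t)
    (ν : ℂ) (hν : ν ∈ Submonoid.closure {z : ℂ | aeval z R = 0}) (c : ℕ) (hc : 0 < c)
    (hprod : (l.map fun x => x.2 ^ t).prod * ν = (c : ℂ)) (i : I) (z : ℂ)
    [BEq (I × ℂ)] [LawfulBEq (I × ℂ)] : l.count (i, z) = l.count (i, (q i : ℂ) / z) := by
  classical
  by_cases hz0 : z = 0
  · rw [hz0, div_zero]
  have hqC : ((q i : ℕ) : ℂ) ≠ 0 := by exact_mod_cast hq i
  have hqL : ((q i : ℕ) : L) ≠ 0 := by exact_mod_cast hq i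
  by_cases hz : aeval z (weil (q i) (h i)) = 0
  swap
  · have h1 : (i, z) ∉ l := by
      intro h1
      have h3 : aeval z (weil (q i) (h i)) = 0 := hl (i, z) h1
      exact hz h3
    have h2 : (i, (q i : ℂ) / z) ∉ l := by
      intro h2
      have h3 : aeval ((q i : ℂ) / z) (weil (q i) (h i)) = 0 := hl (i, (q i : ℂ) / z) h2
      have h4 := root_conj (hq i) (hm i) h3
      rw [div_div_cancel₀ hqC] at h4
      exact hz h4
    exact (List.count_eq_zero.2 h1).trans (List.count_eq_zero.2 h2).symm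
  -- everything in `L`
  obtain ⟨l', rfl, hl'⟩ : ∃ l' : List (I × L), l'.map (Prod.map id j) = l ∧
      ∀ x ∈ l', aeval x.2 (weil (q x.1) (h x.1)) = 0 := by
    clear hprod
    induction l with
    | nil => exact ⟨[], rfl, by simp⟩
    | cons a T ih =>
      obtain ⟨T', h1, h2⟩ := ih fun z hz => hl z (List.mem_cons_of_mem a hz)
      have h3 := hl a List.mem_cons_self
      obtain ⟨x, hx⟩ := hL a.1 a.2 h3
      refine ⟨(a.1, x) :: T', ?_, ?_⟩
      · rw [List.map_cons, h1]
        congr 1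
        exact Prod.ext rfl hx
      · intro y hy
        rcases List.mem_cons.1 hy with e | e
        · rw [e]
          exact aeval_down j _ x (by rw [hx]; exact h3)
        · exact h2 y e
  obtain ⟨ν', rfl, hν'⟩ : ∃ ν' : L, j ν' = ν ∧ ν' ∈ Submonoid.closure {x : L | aeval x R = 0} := by
    clear hprod
    induction hν using Submonoid.closure_induction with
    | mem x hx =>
      obtain ⟨y, hy⟩ := hLR x hx
      exact ⟨y, hy, Submonoid.subset_closure (aeval_down j _ y (by rw [hy]; exact hx))⟩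
    | one => exact ⟨1, map_one j, one_mem _⟩
    | mul x y _ _ h1 h2 =>
      obtain ⟨a, ha, ha'⟩ := h1
      obtain ⟨b, hb, hb'⟩ := h2
      exact ⟨a * b, by rw [map_mul, ha, hb], mul_mem ha' hb'⟩
  obtain ⟨α, rfl⟩ := hL i z hz
  have hα : aeval α (weil (q i) (h i)) = 0 := aeval_down j _ α hz
  have hα0 := root_ne_zero (hq i) (hm i) hα
  have hinj : Function.Injective (Prod.map id j : I × L → I × ℂ) :=
    Function.Injective.prodMap Function.injective_id j.injective
  have hqj : (q i : ℂ) / j α = j (q i / α) := by rw [map_div₀, map_natCast]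
  rw [hqj]
  refine count_transfer (Prod.map id j) hinj l' (i, α) (i, (q i : L) / α) ?_
  set P : L := (l'.map fun x => x.2).prod with hP
  have hPe : P ^ t * ν' = (c : L) := by
    apply j.injective
    have e1 : ∀ k : List (I × L), ((k.map (Prod.map id j)).map fun x : I × ℂ => x.2 ^ t).prod =
        (j (k.map fun x => x.2).prod) ^ t := by
      intro k
      induction k with
      | nil => simp
      | cons a k ih =>
        rw [List.map_cons, List.map_cons, List.prod_cons, ih, List.map_cons, List.prod_cons,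
          map_mul, mul_pow]
        rfl
    rw [map_mul, map_pow, map_natCast, ← hprod, hP, e1]
  have hc0 : ((c : ℕ) : L) ≠ 0 := by
    have : c ≠ 0 := hc.ne'
    exact_mod_cast this
  have hν0 : ν' ≠ 0 := by
    intro h0
    rw [h0, mul_zero] at hPe
    exact hc0 hPe.symm
  have hPt : P ^ t ≠ 0 := by
    intro h0
    rw [h0, zero_mul] at hPe
    exact hc0 hPe.symm
  have hP0 : P ≠ 0 := by
    intro h0
    rw [h0, zero_pow ht.ne'] at hPt
    exact hPt rfl
  -- the products for automorphisms which fix the roots of `R`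
  have hgen : ∀ σ : L ≃ₐ[ℚ] L, (∀ β : L, aeval β R = 0 → σ β = β) →
      ((l'.map fun x : I × L => σ x.2 / x.2).prod) ^ t = 1 := by
    intro σ s5
    have hσν : σ ν' = ν' := by
      have hall : ∀ y ∈ Submonoid.closure {x : L | aeval x R = 0}, σ y = y := by
        intro y hy
        induction hy using Submonoid.closure_induction with
        | mem x hx => exact s5 x hx
        | one => exact map_one σ
        | mul x y _ _ h1 h2 => rw [map_mul, h1, h2]
      exact hall ν' hν'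
    have hσP : (σ P) ^ t = P ^ t := by
      have h1 := congrArg σ hPe
      rw [map_mul, map_pow, hσν, map_natCast, ← hPe] at h1
      exact mul_right_cancel₀ hν0 h1
    have hprodf : (l'.map fun x : I × L => σ x.2 / x.2).prod = σ P / P := by
      have e1 : ∀ k : List (I × L), (k.map fun x : I × L => σ x.2 / x.2).prod =
          σ (k.map fun x => x.2).prod / (k.map fun x => x.2).prod := by
        intro k
        induction k with
        | nil => simp
        | cons a k ih =>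
          rw [List.map_cons, List.prod_cons, ih, List.map_cons, List.prod_cons, map_mul,
            div_mul_div_comm]
      exact e1 l'
    rw [hprodf, div_pow, hσP, div_self hPt]
  set r : L := (q i : L) / α / α with hr
  have hr0 : r ≠ 0 := div_ne_zero (div_ne_zero hqL hα0) hα0
  obtain ⟨hor, hrou⟩ := key i α hα
  have fin : ∀ T : ℕ, 0 < T → ∀ A d : ℕ, r ^ ((A + d + 1) * T) = r ^ (A * T) → False := by
    intro T hT A d hk
    have h1 : (A + d + 1) * T = A * T + (d + 1) * T := by ring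
    rw [h1, pow_add] at hk
    have h2 : r ^ ((d + 1) * T) = 1 := by
      have h3 : r ^ (A * T) * r ^ ((d + 1) * T) = r ^ (A * T) * 1 := by rw [hk, mul_one]
      exact mul_left_cancel₀ (pow_ne_zero _ hr0) h3
    refine hrou ((d + 1) * T) (by positivity) ?_
    have h3 : r * α ^ 2 = q i := by
      rw [hr]
      field_simp
    have h4 : (r * α ^ 2) ^ ((d + 1) * T) = (q i : L) ^ ((d + 1) * T) := by rw [h3]
    rwa [mul_pow, h2, one_mul] at h4
  obtain ⟨T, hT, hpow⟩ : ∃ T : ℕ, 0 < T ∧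
      r ^ (l'.count (i, (q i : L) / α) * T) = r ^ (l'.count (i, α) * T) := by
    rcases hor with hf | hf
    · obtain ⟨σ, s1, s2, s3, s4, s5⟩ := hf
      refine ⟨t, ht, ?_⟩
      have hab : (i, α) ≠ (i, (q i : L) / α) := by
        intro h0
        exact s2 (Prod.ext_iff.1 h0).2
      have htwo := prod_two (fun x : I × L => σ x.2 / x.2) (i, α) (i, (q i : L) / α) hab r hr0
        (by
          simp only [hr]
          rw [s1])
        (by
          simp only [hr]
          rw [map_div₀, map_natCast, s1, div_div_cancel₀ hqL, inv_div]) l' (by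
          rintro ⟨i', x⟩ hx h1 h2
          have hx' := hl' _ hx
          have hx0 : x ≠ 0 := root_ne_zero (hq i') (hm i') hx'
          by_cases hi : i' = i
          · subst hi
            change σ x / x = 1
            rw [s3 x hx' (fun e => h1 (by rw [e])) (fun e => h2 (by rw [e])), div_self hx0]
          · change σ x / x = 1
            rw [s4 i' hi x hx', div_self hx0])
      rw [pow_mul, pow_mul, ← htwo, mul_pow, hgen σ s5, one_mul]
    · obtain ⟨α', σ, τ, n0, n1, n2, n3, n4, s1, s2, s3, s4, s5, t1, t2⟩ := hf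
      refine ⟨2 * t, by positivity, ?_⟩
      set s : L := (q i : L) / α' / α' with hs
      have hs0 : s ≠ 0 := div_ne_zero (div_ne_zero hqL n0) n0
      have n5 : α ≠ (q i : L) / α' := by
        intro e
        apply n2
        rw [e, div_div_cancel₀ hqL]
      have n6 : (q i : L) / α ≠ (q i : L) / α' := by
        intro e
        apply n1
        have h1 : (q i : L) / ((q i : L) / α) = (q i : L) / ((q i : L) / α') := by rw [e]
        rw [div_div_cancel₀ hqL, div_div_cancel₀ hqL] at h1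
        exact h1.symm
      have hpair : ∀ x y : L, x ≠ y → (i, x) ≠ (i, y) := by
        intro x y hxy h0
        exact hxy (Prod.ext_iff.1 h0).2
      have hfour := prod_four (fun x : I × L => σ x.2 / x.2) (i, α) (i, (q i : L) / α)
        (i, α') (i, (q i : L) / α') (hpair _ _ n3) (hpair _ _ n1.symm) (hpair _ _ n5)
        (hpair _ _ n2.symm) (hpair _ _ n6) (hpair _ _ n4) r s hr0 hs0
        (by
          simp only [hr]
          rw [s1])
        (by
          simp only [hr]
          rw [map_div₀, map_natCast, s1, div_div_cancel₀ hqL, inv_div])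
        (by
          simp only [hs]
          rw [s2])
        (by
          simp only [hs]
          rw [map_div₀, map_natCast, s2, div_div_cancel₀ hqL, inv_div]) l' (by
          rintro ⟨i', x⟩ hx h1 h2 h3 h4
          have hx' := hl' _ hx
          have hx0 : x ≠ 0 := root_ne_zero (hq i') (hm i') hx'
          by_cases hi : i' = i
          · subst hi
            change σ x / x = 1
            rw [s3 x hx' (fun e => h1 (by rw [e])) (fun e => h2 (by rw [e]))
              (fun e => h3 (by rw [e])) (fun e => h4 (by rw [e])), div_self hx0]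
          · change σ x / x = 1
            rw [s4 i' hi x hx', div_self hx0])
      set A := l'.count (i, α)
      set B := l'.count (i, (q i : L) / α)
      set A' := l'.count (i, α')
      set B' := l'.count (i, (q i : L) / α')
      have e1 : (r ^ B * s ^ B') ^ t = (r ^ A * s ^ A') ^ t := by
        rw [← hfour, mul_pow _ (r ^ B * s ^ B'), hgen σ s5, one_mul]
      have hτr : τ r = r⁻¹ := by
        rw [hr, map_div₀, map_div₀, map_natCast, t1, div_div_cancel₀ hqL, inv_div]
      have hτs : τ s = s := by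
        rw [hs, map_div₀, map_div₀, map_natCast, t2]
      have e2 : (r⁻¹ ^ B * s ^ B') ^ t = (r⁻¹ ^ A * s ^ A') ^ t := by
        have h1 := congrArg τ e1
        simp only [map_pow, map_mul, hτr, hτs] at h1
        exact h1
      have e3 : (r ^ A * s ^ B') ^ t = (r ^ B * s ^ A') ^ t := by
        have h1 : r ^ A * s ^ B' = (r ^ A * r ^ B) * (r⁻¹ ^ B * s ^ B') := by
          rw [inv_pow]
          field_simp
        have h2 : r ^ B * s ^ A' = (r ^ A * r ^ B) * (r⁻¹ ^ A * s ^ A') := by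
          rw [inv_pow]
          field_simp
        rw [h1, h2, mul_pow, mul_pow _ (r⁻¹ ^ A * s ^ A'), e2]
      have e4 : ((r ^ B) ^ t * (r ^ B) ^ t) * ((s ^ A') ^ t * (s ^ B') ^ t) =
          ((r ^ A) ^ t * (r ^ A) ^ t) * ((s ^ A') ^ t * (s ^ B') ^ t) := by
        rw [mul_pow, mul_pow] at e1 e3
        calc ((r ^ B) ^ t * (r ^ B) ^ t) * ((s ^ A') ^ t * (s ^ B') ^ t)
            = ((r ^ B) ^ t * (s ^ B') ^ t) * ((r ^ B) ^ t * (s ^ A') ^ t) := by ring
          _ = ((r ^ A) ^ t * (s ^ A') ^ t) * ((r ^ A) ^ t * (s ^ B') ^ t) := by rw [e1, e3]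
          _ = _ := by ring
      have e5 := mul_right_cancel₀ (mul_ne_zero (pow_ne_zero _ (pow_ne_zero _ hs0))
        (pow_ne_zero _ (pow_ne_zero _ hs0))) e4
      rw [← pow_mul, ← pow_mul, ← pow_add, ← pow_add] at e5
      have h1 : B * (2 * t) = B * t + B * t := by ring
      have h2 : A * (2 * t) = A * t + A * t := by ring
      rw [h1, h2]
      exact e5
  by_contra hne
  rcases lt_or_gt_of_ne hne with hlt | hlt
  · obtain ⟨d, hd⟩ := Nat.exists_eq_add_of_lt hlt
    rw [hd] at hpow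
    exact fin T hT _ d hpow
  · obtain ⟨d, hd⟩ := Nat.exists_eq_add_of_lt hlt
    rw [hd] at hpow
    exact fin T hT _ d hpow.symm

theorem nt2 (hF : St_FLIP) (hF2 : St_FLIP2) (hX : St_FIX) : St_NT2 := by
  classical
  intro I _ o q h R N hN hq hm hd hR huni hirr0 hflip hflip2
  have hq' : ∀ i, q i ≠ 0 := fun i => (hq i).ne'
  have hirr : ∀ i, Irreducible ((h i).map (Int.castRingHom ℚ)) := by
    intro i
    obtain ⟨l, hl, h1, h2, h3⟩ := hirr0 i
    have : Fact l.Prime := ⟨hl⟩
    have h4 : Irreducible (h i) :=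
      Monic.irreducible_of_irreducible_map (Int.castRingHom (ZMod l)) (h i) (hm i) h3
    exact (IsPrimitive.Int.irreducible_iff_irreducible_map_cast (hm i).isPrimitive).1 h4
  cases nonempty_fintype I
  have hPm : ((∏ i, weil (q i) (h i)) * R).Monic :=
    (monic_prod_of_monic _ _ fun i _ => weil_monic (q i) (hm i)).mul hR
  obtain ⟨L, _, _, _, j, hj⟩ := exists_field' _ hPm
  have hL : ∀ i, ∀ z : ℂ, aeval z (weil (q i) (h i)) = 0 → ∃ x : L, j x = z := by
    intro i z hz
    apply hj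
    rw [map_mul, map_prod, Finset.prod_eq_zero (Finset.mem_univ i) hz, zero_mul]
  have hLR : ∀ z : ℂ, aeval z R = 0 → ∃ x : L, j x = z := by
    intro z hz
    apply hj
    rw [map_mul, hz, mul_zero]
  have hsp : ∀ i, ((h i).map (algebraMap ℤ L)).Splits := fun i =>
    splits_h (I := Unit) (hq' i) (fun _ => hm i) L j (fun _ => hL i) ()
  have hqd : ∀ i, ∀ θ : L, aeval θ (h i) = 0 → ∃ α : L, α ^ 2 + (q i : L) = θ * α := fun i =>
    quad_L (I := Unit) (hq' i) (fun _ => hm i) L j (fun _ => hL i) ()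
  have key : ∀ i, ∀ α : L, aeval α (weil (q i) (h i)) = 0 →
      (Flp q h R i α ∨ Flp2 q h R i α) ∧
      ∀ t : ℕ, 0 < t → (α ^ 2) ^ t ≠ (q i : L) ^ t := by
    intro i α hα
    by_cases ho : o i
    · obtain ⟨hdeg, ⟨l', hl', hfix⟩, l, hl, hl2, hlq, hlR, hfl, hspl⟩ := hflip2 i ho
      obtain ⟨T, t₀, t₁, hTc, ht₀, ht₁, hne01, hT, hns0, hns1, hlu, hsq⟩ := hfl
      obtain ⟨σ, θ₀, θ₁, a1, a2, a3, a4, a5, a6, a7, a8⟩ := hF2 q h R (luc (q i) N) hm hR L i
        (hsp i) (hqd i) l hl hl2 hlq hlR hspl ⟨T, t₀, t₁, ht₀, ht₁, hne01, hT, hns0, hns1, hlu, hsq⟩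
      have hE : Edg q h R i θ₀ θ₁ := ⟨σ, a5, a6, a7, a8⟩
      obtain ⟨ρ, ϑ, b1, b2, b3⟩ := hX (h i) (hm i) hdeg L (hsp i) l' hl' hfix
      have hqL : (q i : L) ≠ 0 := by exact_mod_cast hq' i
      refine ⟨Or.inr ?_, ?_⟩
      · have hθ := ((root_iff (hq' i) (hm i) α).1 hα).2
        obtain ⟨θ', θ'', c1, c2, c3, c4, c5⟩ := two_partners hm L i (hirr i) θ₀ θ₁ a1 a2 a3 hE
          ρ ϑ b1 b2 b3 (α + (q i : L) / α) hθ
        exact flp2_of_edg hq' hm L i (hqd i) α hα θ' θ'' c1 c2 c3 c4 c5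
      · intro t ht hαt
        obtain ⟨α₀, hα₀⟩ := hqd i θ₀ a1
        have hα₀0 : α₀ ≠ 0 := by
          rintro rfl
          rw [zero_pow two_ne_zero, zero_add, mul_zero] at hα₀
          exact hqL hα₀
        have hα₀w : aeval α₀ (weil (q i) (h i)) = 0 := by
          rw [aeval_weil (q i) (h i) α₀ θ₀ hα₀, a1, mul_zero]
        have hθe : α₀ + (q i : L) / α₀ = θ₀ := by
          apply mul_right_cancel₀ hα₀0
          rw [← hα₀]
          field_simp
        have hne := (a5 α₀ hα₀w (Or.inl hθe)).2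
        refine no_rou hq' hm L j hL i (hirr i) (huni i) α₀ hα₀w hne ?_ α hα t ht hαt
        rw [hθe]
        exact a4
    · obtain ⟨l, hl, hl2, hlq, hlR, hfl, hspl⟩ := hflip i ho
      obtain ⟨T, t₀, hTc, ht₀, hT, hns, hlu, hsq⟩ := hfl
      obtain ⟨σ, α₀, a1, a2, a3, a4, a5, a6, a7⟩ := hF q h R (luc (q i) N) hm hR L i (hsp i)
        (hqd i) l hl hl2 hlq hlR hspl ⟨T, t₀, ht₀, hT, hns, hlu, hsq⟩
      have hfl0 : Flp q h R i α₀ := ⟨σ, a2, a3, a5, a6, a7⟩
      exact ⟨Or.inl (flp_conj hq' hm L j hL i (hirr i) α₀ a1 hfl0 α hα), fun t ht hαt =>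
        no_rou hq' hm L j hL i (hirr i) (huni i) α₀ a1 a3 a4 α hα t ht hαt⟩
  refine ⟨?_, ?_⟩
  · unfold Pool.Agent.W458.MF.Balanced
    intro l hl t ht ν hν c hc hprod i z
    exact bal2 hq' hm L j hL hLR key l hl t ht ν hν c hc hprod i z
  · intro i
    refine sep (hq' i) (hm i) (hirr i) L (hsp i) (hqd i) fun α hα => ?_
    obtain ⟨hor, -⟩ := key i α hα
    rcases hor with ⟨σ, s1, s2, -⟩ | ⟨α', σ, τ, n0, n1, n2, n3, -⟩
    · exact s2
    · exact n3

end Pool.Agent.W928.MF
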